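import Pool.Agent.W994.SAC.Defs

/-!
# Semi-unbounded circuits of logarithmic depth for the unrolled De Bruijn graph
-/

set_option autoImplicit false

namespace Pool.Agent.W994.SAC

open Finset
open Pool.Agent.W997.DB (Word Var Input shift value bits)

variable {ρ h ℓ : ℕ}

/-- The gates: literals, tests of an initial part of the bits of a variable, tests of the value of a
node, tests of the values of the children of a node, tests of the values of the children and of the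
entry of the table, the output. -/
inductive Gt (ρ h ℓ : ℕ) : Type where
  | lit (v : Var 2 ρ h (2 ^ ℓ)) (e : Fin ℓ) (b : Bool) : Gt ρ h ℓ
  | tst (v : Var 2 ρ h (2 ^ ℓ)) (c : Fin (2 ^ ℓ)) (e : Fin ℓ) : Gt ρ h ℓ
  | nod (j : Fin (h + 1)) (g : Word 2 ρ) (i : Fin 2) (c : Fin (2 ^ ℓ)) : Gt ρ h ℓ
  | chi (j : Fin h) (g : Word 2 ρ) (i : Fin 2) (u : Fin 2 → Fin (2 ^ ℓ)) : Gt ρ h ℓ
  | ent (j : Fin h) (g : Word 2 ρ) (i : Fin 2) (u : Fin 2 → Fin (2 ^ ℓ)) (c : Fin (2 ^ ℓ)) :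
    Gt ρ h ℓ
  | out : Gt ρ h ℓ

/-- The gates as a sum. -/
abbrev Gs (ρ h ℓ : ℕ) : Type :=
  ((Var 2 ρ h (2 ^ ℓ) × Fin ℓ × Bool) ⊕ (Var 2 ρ h (2 ^ ℓ) × Fin (2 ^ ℓ) × Fin ℓ)) ⊕
  ((Fin (h + 1) × Word 2 ρ × Fin 2 × Fin (2 ^ ℓ)) ⊕
    (Fin h × Word 2 ρ × Fin 2 × (Fin 2 → Fin (2 ^ ℓ)))) ⊕
  ((Fin h × Word 2 ρ × Fin 2 × (Fin 2 → Fin (2 ^ ℓ)) × Fin (2 ^ ℓ)) ⊕ Unit)

/-- The two descriptions of the gates. -/
def gtEquiv : Gt ρ h ℓ ≃ Gs ρ h ℓ where
  toFun
    | .lit v e b => Sum.inl (Sum.inl (v, e, b))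
    | .tst v c e => Sum.inl (Sum.inr (v, c, e))
    | .nod j g i c => Sum.inr (Sum.inl (Sum.inl (j, g, i, c)))
    | .chi j g i u => Sum.inr (Sum.inl (Sum.inr (j, g, i, u)))
    | .ent j g i u c => Sum.inr (Sum.inr (Sum.inl (j, g, i, u, c)))
    | .out => Sum.inr (Sum.inr (Sum.inr ()))
  invFun
    | Sum.inl (Sum.inl (v, e, b)) => .lit v e b
    | Sum.inl (Sum.inr (v, c, e)) => .tst v c e
    | Sum.inr (Sum.inl (Sum.inl (j, g, i, c))) => .nod j g i c
    | Sum.inr (Sum.inl (Sum.inr (j, g, i, u))) => .chi j g i u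
    | Sum.inr (Sum.inr (Sum.inl (j, g, i, u, c))) => .ent j g i u c
    | Sum.inr (Sum.inr (Sum.inr _)) => .out
  left_inv := by rintro (_ | _ | _ | _ | _ | _) <;> rfl
  right_inv := by
    rintro ((⟨_, _, _⟩ | ⟨_, _, _⟩) | ((⟨_, _, _, _⟩ | ⟨_, _, _, _⟩) | (⟨_, _, _, _, _⟩ | _))) <;>
      rfl

noncomputable instance : Fintype (Gt ρ h ℓ) := Fintype.ofEquiv _ gtEquiv.symm

theorem card_gt (ρ h ℓ : ℕ) : Fintype.card (Gt ρ h ℓ) =
    Fintype.card (Var 2 ρ h (2 ^ ℓ)) * (2 * ℓ + 2 ^ ℓ * ℓ) + (h + 1) * 2 ^ (ρ + 2) * 2 ^ ℓ +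
      h * 2 ^ (ρ + 2) * (2 ^ ℓ) ^ 2 + h * 2 ^ (ρ + 2) * (2 ^ ℓ) ^ 2 * 2 ^ ℓ + 1 := by
  rw [Fintype.card_congr gtEquiv]
  simp only [Fintype.card_sum, Fintype.card_prod, Fintype.card_fun, Fintype.card_fin,
    Fintype.card_bool, Fintype.card_unit]
  ring

open Classical in
/-- The labels of the gates. -/
noncomputable def gop (hℓ : 0 < ℓ) (S : Fin (2 ^ ℓ) → Bool) (g₀ : Word 2 ρ) (i₀ : Fin 2) :
    Gt ρ h ℓ → Op (Var 2 ρ h (2 ^ ℓ) × Fin ℓ) (Gt ρ h ℓ)
  | .lit v e b => .lit (v, e) b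
  | .tst v c e =>
    if he : e.val = 0 then .lit (v, e) (c.val.testBit e.val)
    else .and (.tst v c ⟨e.val - 1, by have := e.2; omega⟩) (.lit v e (c.val.testBit e.val))
  | .nod j g i c =>
    if hj : j.val = 0 then .or {.tst (Sum.inr (g, i)) c ⟨ℓ - 1, by omega⟩}
    else .or (univ.image fun u : Fin 2 → Fin (2 ^ ℓ) =>
      .ent ⟨j.val - 1, by have := j.2; omega⟩ g i u c)
  | .chi j g i u => .and (.nod ⟨j.val, by have := j.2; omega⟩ (shift g i) 0 (u 0))
      (.nod ⟨j.val, by have := j.2; omega⟩ (shift g i) 1 (u 1))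
  | .ent j g i u c => .and (.chi j g i u) (.tst (Sum.inl (j, g, i, u)) c ⟨ℓ - 1, by omega⟩)
  | .out => .or ((univ.filter fun c => S c = true).image fun c =>
      .nod ⟨h, Nat.lt_succ_self h⟩ g₀ i₀ c)

/-- The levels of the gates. -/
def glev : Gt ρ h ℓ → ℕ
  | .lit _ _ _ => 0
  | .tst _ _ e => e.val + 1
  | .nod j _ _ _ => ℓ + 1 + 3 * j.val
  | .chi j _ _ _ => ℓ + 2 + 3 * j.val
  | .ent j _ _ _ _ => ℓ + 3 + 3 * j.val
  | .out => ℓ + 2 + 3 * h

theorem glev_lt (hℓ : 0 < ℓ) (S : Fin (2 ^ ℓ) → Bool) (g₀ : Word 2 ρ) (i₀ : Fin 2)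
    (x a : Gt ρ h ℓ) (hx : (gop hℓ S g₀ i₀ x).Feeds a) : glev a < glev x := by
  classical
  cases x with
  | lit v e b => exact hx.elim
  | tst v c e =>
    simp only [gop] at hx
    split_ifs at hx with he
    · exact hx.elim
    · rcases hx with rfl | rfl
      · simp only [glev]; omega
      · simp only [glev]; omega
  | nod j g i c =>
    simp only [gop] at hx
    split_ifs at hx with hj
    · rw [Op.Feeds, mem_singleton] at hx
      subst hx
      simp only [glev]; omega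
    · rw [Op.Feeds, mem_image] at hx
      obtain ⟨u, _, rfl⟩ := hx
      simp only [glev]; omega
  | chi j g i u =>
    rcases hx with rfl | rfl
    · simp only [glev]; omega
    · simp only [glev]; omega
  | ent j g i u c =>
    rcases hx with rfl | rfl
    · simp only [glev]; omega
    · simp only [glev]; omega
  | out =>
    simp only [gop] at hx
    rw [Op.Feeds, mem_image] at hx
    obtain ⟨u, _, rfl⟩ := hx
    simp only [glev]; omega

/-- The circuit. -/
noncomputable def suc (hℓ : 0 < ℓ) (S : Fin (2 ^ ℓ) → Bool) (g₀ : Word 2 ρ) (i₀ : Fin 2) :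
    SUCircuit (Var 2 ρ h (2 ^ ℓ) × Fin ℓ) where
  Gate := Gt ρ h ℓ
  op := gop hℓ S g₀ i₀
  level := glev
  level_lt := glev_lt hℓ S g₀ i₀
  out := .out

/-- The values of the gates. -/
def gval (S : Fin (2 ^ ℓ) → Bool) (g₀ : Word 2 ρ) (i₀ : Fin 2) (x : Input 2 ρ h (2 ^ ℓ)) :
    Gt ρ h ℓ → Prop
  | .lit v e b => (x v).val.testBit e.val = b
  | .tst v c e => ∀ e' ≤ e.val, (x v).val.testBit e' = c.val.testBit e'
  | .nod j g i c => value x j.val (Nat.le_of_lt_succ j.2) g i = c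
  | .chi j g i u => ∀ s, value x j.val (Nat.le_of_lt j.2) (shift g i) s = u s
  | .ent j g i u c => (∀ s, value x j.val (Nat.le_of_lt j.2) (shift g i) s = u s) ∧
      x (Sum.inl (j, g, i, u)) = c
  | .out => S (value x h le_rfl g₀ i₀) = true

theorem eq_of_bits (hℓ : 0 < ℓ) {c c' : Fin (2 ^ ℓ)}
    (hc : ∀ e' ≤ ℓ - 1, c.val.testBit e' = c'.val.testBit e') : c = c' := by
  refine Fin.ext (Nat.eq_of_testBit_eq fun e => ?_)
  by_cases he : e < ℓ
  · exact hc e (by omega)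
  · rw [Nat.testBit_lt_two_pow (lt_of_lt_of_le c.2 (Nat.pow_le_pow_right (by norm_num) (by omega))),
      Nat.testBit_lt_two_pow (lt_of_lt_of_le c'.2 (Nat.pow_le_pow_right (by norm_num) (by omega)))]

theorem gval_eq (hℓ : 0 < ℓ) (S : Fin (2 ^ ℓ) → Bool) (g₀ : Word 2 ρ) (i₀ : Fin 2)
    (x : Input 2 ρ h (2 ^ ℓ)) (y : Gt ρ h ℓ) :
    gval S g₀ i₀ x y ↔ (gop hℓ S g₀ i₀ y).Eval (bits x) (gval S g₀ i₀ x) := by
  classical
  cases y with
  | lit v e b => exact Iff.rfl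
  | tst v c e =>
    simp only [gop]
    split_ifs with he
    · show (∀ e' ≤ e.val, (x v).val.testBit e' = c.val.testBit e') ↔
        (x v).val.testBit e.val = c.val.testBit e.val
      constructor
      · intro h1
        exact h1 _ le_rfl
      · intro h1 e' he'
        have : e' = e.val := by omega
        rw [this, h1]
    · show (∀ e' ≤ e.val, (x v).val.testBit e' = c.val.testBit e') ↔
        (∀ e' ≤ e.val - 1, (x v).val.testBit e' = c.val.testBit e') ∧
          (x v).val.testBit e.val = c.val.testBit e.val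
      constructor
      · intro h1
        exact ⟨fun e' he' => h1 e' (by omega), h1 _ le_rfl⟩
      · rintro ⟨h1, h2⟩ e' he'
        by_cases h3 : e' = e.val
        · rw [h3, h2]
        · exact h1 e' (by omega)
  | nod j g i c =>
    simp only [gop]
    split_ifs with hj
    · obtain ⟨j, hj'⟩ := j
      simp only at hj
      subst hj
      simp only [Op.Eval, mem_singleton, exists_eq_left]
      show value x 0 _ g i = c ↔
        ∀ e' ≤ ℓ - 1, (x (Sum.inr (g, i))).val.testBit e' = c.val.testBit e'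
      rw [value]
      constructor
      · intro h1 e' _
        rw [h1]
      · intro h1
        exact eq_of_bits hℓ h1
    · obtain ⟨j, hj'⟩ := j
      simp only at hj
      obtain ⟨j, rfl⟩ : ∃ j', j = j' + 1 := ⟨j - 1, by omega⟩
      show value x (j + 1) _ g i = c ↔ ∃ a ∈ (univ.image fun u : Fin 2 → Fin (2 ^ ℓ) =>
        (.ent ⟨j + 1 - 1, _⟩ g i u c : Gt ρ h ℓ)), gval S g₀ i₀ x a
      simp only [mem_image, mem_univ, true_and, exists_exists_eq_and]
      rw [value]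
      constructor
      · intro h1
        exact ⟨fun s => value x j _ (shift g i) s, fun s => rfl, h1⟩
      · rintro ⟨u, h1, h2⟩
        rw [← h2]
        congr 5
        funext s
        exact h1 s
  | chi j g i u =>
    show (∀ s, value x j.val _ (shift g i) s = u s) ↔
      value x j.val _ (shift g i) 0 = u 0 ∧ value x j.val _ (shift g i) 1 = u 1
    exact Fin.forall_fin_two
  | ent j g i u c =>
    show (_ ∧ x (Sum.inl (j, g, i, u)) = c) ↔ _ ∧
      (∀ e' ≤ ℓ - 1, (x (Sum.inl (j, g, i, u))).val.testBit e' = c.val.testBit e')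
    refine and_congr Iff.rfl ⟨fun h1 e' _ => by rw [h1], fun h1 => eq_of_bits hℓ h1⟩
  | out =>
    show S (value x h le_rfl g₀ i₀) = true ↔ ∃ a ∈ ((univ.filter fun c => S c = true).image
      fun c => (.nod ⟨h, Nat.lt_succ_self h⟩ g₀ i₀ c : Gt ρ h ℓ)), gval S g₀ i₀ x a
    simp only [mem_image, mem_filter, mem_univ, true_and]
    constructor
    · intro h1
      exact ⟨_, ⟨_, h1, rfl⟩, rfl⟩
    · rintro ⟨a, ⟨c, h1, rfl⟩, h2⟩
      have h3 : value x h le_rfl g₀ i₀ = c := h2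
      rw [h3, h1]

/-- The semi-unbounded circuit. -/
theorem bySAC (hℓ : 0 < ℓ) (S : Fin (2 ^ ℓ) → Bool) (g₀ : Word 2 ρ) (i₀ : Fin 2) {s d : ℝ}
    (hs : ((Fintype.card (Gt ρ h ℓ) : ℕ) : ℝ) ≤ s) (hd : ((ℓ + 2 + 3 * h : ℕ) : ℝ) ≤ d) :
    BySAC (fun x : Input 2 ρ h (2 ^ ℓ) => S (value x h le_rfl g₀ i₀)) s d := by
  refine ⟨suc hℓ S g₀ i₀, hs, le_trans (Nat.cast_le.mpr ?_) hd, fun x => ?_⟩
  · refine Finset.sup_le fun x _ => ?_
    show glev x ≤ _
    cases x with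
    | lit v e b => simp only [glev]; omega
    | tst v c e => have := e.2; simp only [glev]; omega
    | nod j g i c => have := j.2; simp only [glev]; omega
    | chi j g i u => have := j.2; simp only [glev]; omega
    | ent j g i u c => have := j.2; simp only [glev]; omega
    | out => simp only [glev]; omega
  · exact ⟨gval S g₀ i₀ x, fun y => gval_eq hℓ S g₀ i₀ x y, Iff.rfl⟩

end Pool.Agent.W994.SAC
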