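import Pool.Agent.W997.DB.Stmt

/-!
# Semi-unbounded circuits and pushdown programs
-/

set_option autoImplicit false

namespace Pool.Agent.W994.SAC

open Finset

/-- The label of a gate of a semi-unbounded circuit with the set `X` of inputs and the set `G` of
gates. -/
inductive Op (X G : Type) : Type where
  /-- the input `v` or its negation: is the value of `v` equal to `b`? -/
  | lit (v : X) (b : Bool) : Op X G
  /-- an AND gate of fan-in 2 -/
  | and (a b : G) : Op X G
  /-- an OR gate of arbitrary fan-in -/
  | or (s : Finset G) : Op X G

namespace Op

variable {X G : Type}

/-- `g` feeds a gate with the given label. -/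
def Feeds (g : G) : Op X G → Prop
  | lit _ _ => False
  | and a b => g = a ∨ g = b
  | or s => g ∈ s

/-- The value of a gate, if the values of the inputs and of the other gates are given. -/
def Eval (y : X → Bool) (u : G → Prop) : Op X G → Prop
  | lit v b => y v = b
  | and a b => u a ∧ u b
  | or s => ∃ a ∈ s, u a

end Op

/-- A semi-unbounded circuit with the set `X` of inputs: a finite set of gates with labels, and a
level for every gate such that the gates which feed a gate have a smaller level. -/
structure SUCircuit (X : Type) where
  /-- the gates -/
  Gate : Type
  /-- there are finitely many gates -/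
  [fintype : Fintype Gate]
  /-- the label of a gate -/
  op : Gate → Op X Gate
  /-- the level of a gate -/
  level : Gate → ℕ
  /-- the levels increase along the wires -/
  level_lt : ∀ g a, (op g).Feeds a → level a < level g
  /-- the output gate -/
  out : Gate

attribute [instance] SUCircuit.fintype

namespace SUCircuit

variable {X : Type} (C : SUCircuit X)

/-- The number of gates. -/
def size : ℕ := Fintype.card C.Gate

/-- The largest level, which bounds the number of gates on every path. -/
def depth : ℕ := univ.sup C.level

/-- On the input `y` the output gate has the value `b`. -/
def Outputs (y : X → Bool) (b : Bool) : Prop :=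
  ∃ u : C.Gate → Prop, (∀ g, u g ↔ (C.op g).Eval y u) ∧ (u C.out ↔ b = true)

/-- The values of the gates are determined by the input. -/
theorem values_unique (y : X → Bool) (u u' : C.Gate → Prop)
    (h : ∀ g, u g ↔ (C.op g).Eval y u) (h' : ∀ g, u' g ↔ (C.op g).Eval y u') (g : C.Gate) :
    u g ↔ u' g := by
  have key : ∀ n, ∀ g, C.level g < n → (u g ↔ u' g) := by
    intro n
    induction n with
    | zero => intro g hg; omega
    | succ n ih =>
      intro g hg
      have hl := C.level_lt g
      rw [h g, h' g]
      cases hop : C.op g with
      | lit v b => exact Iff.rfl
      | and a b =>
        rw [hop] at hl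
        have h1 := ih a (by have := hl a (Or.inl rfl); omega)
        have h2 := ih b (by have := hl b (Or.inr rfl); omega)
        exact and_congr h1 h2
      | or s =>
        rw [hop] at hl
        constructor
        · rintro ⟨a, ha, hu⟩
          exact ⟨a, ha, (ih a (by have := hl a ha; omega)).mp hu⟩
        · rintro ⟨a, ha, hu⟩
          exact ⟨a, ha, (ih a (by have := hl a ha; omega)).mpr hu⟩
  exact key _ g (Nat.lt_succ_self _)

theorem output_unique (y : X → Bool) (b b' : Bool) (h : C.Outputs y b) (h' : C.Outputs y b') :
    b = b' := by
  obtain ⟨u, h1, h2⟩ := h
  obtain ⟨u', h1', h2'⟩ := h'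
  have h3 := h2.symm.trans ((C.values_unique y u u' h1 h1' C.out).trans h2')
  cases b <;> cases b' <;> simp_all

end SUCircuit

/-- The function is computed by a semi-unbounded circuit over the bits of the variables with at most
`s` gates and depth at most `d`. -/
def BySAC {V : Type} {ℓ : ℕ} (f : (V → Fin (2 ^ ℓ)) → Bool) (s d : ℝ) : Prop :=
  ∃ C : SUCircuit (V × Fin ℓ), (C.size : ℝ) ≤ s ∧ (C.depth : ℝ) ≤ d ∧
    ∀ x, C.Outputs (Pool.Agent.W997.DB.bits x) (f x)

/-- A deterministic pushdown program over the set `V` of variables with values in `Fin k`. In a
state `q` it reads the value of the variable `query q` and the top symbol of the stack (`none` if the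
stack is empty), and either stops with an output or goes to another state and replaces the top symbol
by a list of symbols. -/
structure PDP (V : Type) (k : ℕ) where
  /-- the states -/
  State : Type
  /-- there are finitely many states -/
  [fintypeState : Fintype State]
  /-- the stack symbols -/
  Sym : Type
  /-- there are finitely many stack symbols -/
  [fintypeSym : Fintype Sym]
  /-- the start state -/
  start : State
  /-- the variable which is read in a state -/
  query : State → V
  /-- the new state and the symbols which are pushed, or the output -/
  next : State → Fin k → Option Sym → (State × List Sym) ⊕ Bool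

attribute [instance] PDP.fintypeState PDP.fintypeSym

namespace PDP

variable {V : Type} {k : ℕ} (P : PDP V k)

/-- The output of the program on the input `x` after at most `t` steps, started in the state `q`
with the stack `l` (`none` if the program does not stop). -/
def exec (x : V → Fin k) : ℕ → P.State → List P.Sym → Option Bool
  | 0, _, _ => none
  | t + 1, q, l => match P.next q (x (P.query q)) l.head? with
    | Sum.inl u => exec x t u.1 (u.2 ++ l.tail)
    | Sum.inr b => some b

end PDP

/-- The function is computed by a deterministic pushdown program with at most `s` states and stack
symbols which replaces the top symbol of the stack by at most two symbols in each step, and which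
stops after at most `t` steps on all inputs. -/
def ByPushdown {V : Type} {k : ℕ} (f : (V → Fin k) → Bool) (s t : ℝ) : Prop :=
  ∃ P : PDP V k, ((Fintype.card P.State + Fintype.card P.Sym : ℕ) : ℝ) ≤ s ∧
    (∀ q c o q' l, P.next q c o = Sum.inl (q', l) → l.length ≤ 2) ∧
    ∀ x, ∃ T : ℕ, (T : ℝ) ≤ t ∧ P.exec x T P.start [] = some (f x)

end Pool.Agent.W994.SAC
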