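import Pool.Agent.W994.SAC.Defs

/-!
# A pushdown program for the unrolled De Bruijn graph
-/

set_option autoImplicit false

namespace Pool.Agent.W994.SAC

open Finset
open Pool.Agent.W997.DB (Word Var Input shift value)

variable {ρ h k : ℕ}

/-- The states: evaluate a node, return a value, look up an entry of a table. -/
abbrev St (ρ h k : ℕ) : Type :=
  (Fin (h + 1) × Word 2 ρ × Fin 2) ⊕ (Fin k ⊕ (Fin h × Word 2 ρ × Fin 2 × Fin k × Fin k))

/-- The stack symbols: a node the first child of which is evaluated, and a node with the value of the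
first child, the second child of which is evaluated. -/
abbrev Sy (ρ h k : ℕ) : Type :=
  (Fin h × Word 2 ρ × Fin 2) ⊕ (Fin h × Word 2 ρ × Fin 2 × Fin k)

/-- The pair `(c₀, c₁)`. -/
def pr2 (c₀ c₁ : Fin k) : Fin 2 → Fin k := fun s => if s = 0 then c₀ else c₁

/-- The variable of a state. -/
def qry (g₀ : Word 2 ρ) (i₀ : Fin 2) : St ρ h k → Var 2 ρ h k
  | Sum.inl (_, g, i) => Sum.inr (g, i)
  | Sum.inr (Sum.inl _) => Sum.inr (g₀, i₀)
  | Sum.inr (Sum.inr (j, g, i, c₀, c₁)) => Sum.inl (j, g, i, pr2 c₀ c₁)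

/-- The transitions. -/
def nxt (S : Fin k → Bool) : St ρ h k → Fin k → Option (Sy ρ h k) →
    (St ρ h k × List (Sy ρ h k)) ⊕ Bool
  | Sum.inl (j, g, i), c, o =>
    if hj : j.val = 0 then Sum.inl (Sum.inr (Sum.inl c), o.toList)
    else Sum.inl (Sum.inl (⟨j.val - 1, by have := j.2; omega⟩, shift g i, 0),
      Sum.inl (⟨j.val - 1, by have := j.2; omega⟩, g, i) :: o.toList)
  | Sum.inr (Sum.inl c), _, none => Sum.inr (S c)
  | Sum.inr (Sum.inl c), _, some (Sum.inl (j, g, i)) =>
    Sum.inl (Sum.inl (⟨j.val, by have := j.2; omega⟩, shift g i, 1), [Sum.inr (j, g, i, c)])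
  | Sum.inr (Sum.inl c), _, some (Sum.inr (j, g, i, c₀)) =>
    Sum.inl (Sum.inr (Sum.inr (j, g, i, c₀, c)), [])
  | Sum.inr (Sum.inr _), c, o => Sum.inl (Sum.inr (Sum.inl c), o.toList)

/-- The program. -/
def pdp (ρ h k : ℕ) (S : Fin k → Bool) (g : Word 2 ρ) (i : Fin 2) : PDP (Var 2 ρ h k) k where
  State := St ρ h k
  Sym := Sy ρ h k
  start := Sum.inl (⟨h, Nat.lt_succ_self h⟩, g, i)
  query := qry g i
  next := nxt S

theorem toList_tail {A : Type} (l : List A) : l.head?.toList ++ l.tail = l := by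
  cases l <;> rfl

/-- The number of steps for a node of height `j`. -/
def steps : ℕ → ℕ
  | 0 => 1
  | j + 1 => 2 * steps j + 4

theorem steps_eq (j : ℕ) : steps j + 4 = 5 * 2 ^ j := by
  induction j with
  | zero => rfl
  | succ j ih => rw [steps, pow_succ]; omega

theorem exec_node (S : Fin k → Bool) (g₀ : Word 2 ρ) (i₀ : Fin 2) (x : Input 2 ρ h k) :
    ∀ (j : ℕ) (hj : j ≤ h) (g : Word 2 ρ) (i : Fin 2) (t : ℕ) (l : List (Sy ρ h k)),
      (pdp ρ h k S g₀ i₀).exec x (steps j + t) (Sum.inl (⟨j, Nat.lt_succ_of_le hj⟩, g, i)) l =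
        (pdp ρ h k S g₀ i₀).exec x t (Sum.inr (Sum.inl (value x j hj g i))) l := by
  intro j
  induction j with
  | zero =>
    intro hj g i t l
    rw [steps, Nat.add_comm, PDP.exec]
    show (pdp ρ h k S g₀ i₀).exec x t (Sum.inr (Sum.inl (x (Sum.inr (g, i)))))
      (l.head?.toList ++ l.tail) = _
    rw [toList_tail, value]
  | succ j ih =>
    intro hj g i t l
    have e1 : steps (j + 1) + t = (steps j + (steps j + (t + 1) + 1 + 1)) + 1 := by
      rw [steps]; omega
    rw [e1, PDP.exec]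
    show (pdp ρ h k S g₀ i₀).exec x _ (Sum.inl (⟨j, _⟩, shift g i, 0))
      ((Sum.inl (⟨j, hj⟩, g, i) :: l.head?.toList) ++ l.tail) = _
    rw [List.cons_append, toList_tail, ih (Nat.le_of_succ_le hj), PDP.exec]
    show (pdp ρ h k S g₀ i₀).exec x _ (Sum.inl (⟨j, _⟩, shift g i, 1))
      ([Sum.inr (⟨j, hj⟩, g, i, value x j _ (shift g i) 0)] ++ l) = _
    have e2 : steps j + (t + 1) + 1 = steps j + (t + 1 + 1) := by omega
    rw [e2, ih (Nat.le_of_succ_le hj), PDP.exec]
    show (pdp ρ h k S g₀ i₀).exec x (t + 1) (Sum.inr (Sum.inr (⟨j, hj⟩, g, i,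
      value x j _ (shift g i) 0, value x j _ (shift g i) 1))) l = _
    rw [PDP.exec]
    show (pdp ρ h k S g₀ i₀).exec x t (Sum.inr (Sum.inl (x (Sum.inl (⟨j, hj⟩, g, i,
      pr2 (value x j _ (shift g i) 0) (value x j _ (shift g i) 1)))))) (l.head?.toList ++ l.tail) = _
    rw [toList_tail]
    congr 3
    rw [value]
    refine congrArg x (congrArg Sum.inl ?_)
    refine Prod.ext rfl (Prod.ext rfl (Prod.ext rfl (funext fun s => ?_)))
    fin_cases s <;> rfl

theorem exec_pdp (S : Fin k → Bool) (g : Word 2 ρ) (i : Fin 2) (x : Input 2 ρ h k) :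
    (pdp ρ h k S g i).exec x (steps h + 1) (pdp ρ h k S g i).start [] =
      some (S (value x h le_rfl g i)) := by
  have h1 := exec_node S g i x h le_rfl g i 1 []
  refine h1.trans ?_
  rw [PDP.exec]
  rfl

theorem nxt_length (S : Fin k → Bool) (q : St ρ h k) (c : Fin k) (o : Option (Sy ρ h k))
    (q' : St ρ h k) (l : List (Sy ρ h k)) (hl : nxt S q c o = Sum.inl (q', l)) :
    l.length ≤ 2 := by
  have ho : o.toList.length ≤ 1 := by cases o <;> simp
  rcases q with ⟨j, g, i⟩ | c' | ⟨j, g, i, c₀, c₁⟩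
  · rw [nxt] at hl
    split_ifs at hl
    · have := congrArg Prod.snd (Sum.inl.inj hl)
      simp only at this
      rw [← this]
      omega
    · have := congrArg Prod.snd (Sum.inl.inj hl)
      simp only at this
      rw [← this, List.length_cons]
      omega
  · rcases o with _ | ⟨j, g, i⟩ | ⟨j, g, i, c₀⟩
    · rw [nxt] at hl
      exact absurd hl (by simp)
    · rw [nxt] at hl
      have := congrArg Prod.snd (Sum.inl.inj hl)
      simp only at this
      rw [← this]
      simp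
    · rw [nxt] at hl
      have := congrArg Prod.snd (Sum.inl.inj hl)
      simp only at this
      rw [← this]
      simp
  · rw [nxt] at hl
    have := congrArg Prod.snd (Sum.inl.inj hl)
    simp only at this
    rw [← this]
    omega

theorem card_pdp (ρ h k : ℕ) : Fintype.card (St ρ h k) + Fintype.card (Sy ρ h k) =
    (h + 1) * 2 ^ (ρ + 2) + k + h * 2 ^ (ρ + 2) * k ^ 2 + h * 2 ^ (ρ + 2) +
      h * 2 ^ (ρ + 2) * k := by
  simp only [Fintype.card_sum, Fintype.card_prod, Fintype.card_fun, Fintype.card_fin]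
  ring

/-- The pushdown program. -/
theorem byPushdown (S : Fin k → Bool) (g : Word 2 ρ) (i : Fin 2) {s t : ℝ}
    (hs : (((h + 1) * 2 ^ (ρ + 2) + k + h * 2 ^ (ρ + 2) * k ^ 2 + h * 2 ^ (ρ + 2) +
      h * 2 ^ (ρ + 2) * k : ℕ) : ℝ) ≤ s) (ht : ((5 * 2 ^ h : ℕ) : ℝ) ≤ t) :
    ByPushdown (fun x : Input 2 ρ h k => S (value x h le_rfl g i)) s t := by
  refine ⟨pdp ρ h k S g i, ?_, ?_, ?_⟩
  · refine le_trans (le_of_eq ?_) hs
    exact congrArg Nat.cast (card_pdp ρ h k)
  · intro q c o q' l hl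
    exact nxt_length S q c o q' l hl
  · intro x
    refine ⟨steps h + 1, le_trans ?_ ht, exec_pdp S g i x⟩
    have := steps_eq h
    exact_mod_cast (by omega : steps h + 1 ≤ 5 * 2 ^ h)

end Pool.Agent.W994.SAC
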