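import Pool.Agent.W994.NC.Final
import Pool.Agent.W994.SAC.Circ
import Pool.Agent.W994.SAC.Stack

/-!
# A function with semi-unbounded circuits of logarithmic depth
-/

set_option autoImplicit false

namespace Pool.Agent.W994.SAC

open Finset
open Pool.Agent.W994.NC (Par NondetHard exists_par)
open Pool.Agent.W997.DB (Word Var Input value rootBit ByCircuit ByProgram)
open Pool.Agent.W997.TS (bit)

variable {θ ζ δ : ℝ} {m a p q h ℓ N : ℕ}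

theorem pow_ge {n : ℕ} (hn : 4 ≤ n) : 2 * n + 3 ≤ 2 ^ n := by
  induction n, hn using Nat.le_induction with
  | base => norm_num
  | succ n hn ih => rw [pow_succ]; omega

theorem size_le (H : Par θ ζ δ m a p q h ℓ N) : Fintype.card (Gt p h ℓ) ≤ N ^ 2 := by
  have h1 := H.h1
  have hℓ : 32 ≤ ℓ := by
    have := H.ha
    have := H.hm
    have := H.hp2
    rw [H.hℓ]
    nlinarith
  rw [card_gt, ← H.hN]
  have hN := H.N_eq
  have hA : h * 2 ^ (p + 2) * (2 ^ ℓ) ^ 2 ≤ N := by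
    rw [hN, ← pow_mul, mul_comm ℓ 2]
    refine le_trans (le_of_eq ?_) (Nat.le_add_right _ _)
    ring
  obtain ⟨k, hk⟩ : ∃ k, 2 ^ ℓ = k := ⟨_, rfl⟩
  have hk1 : 2 * ℓ + 3 ≤ k := by rw [← hk]; exact pow_ge (by omega)
  rw [hk] at hA ⊢
  obtain ⟨B, hB⟩ : ∃ B, h * 2 ^ (p + 2) = B := ⟨_, rfl⟩
  have hB1 : (h + 1) * 2 ^ (p + 2) ≤ 2 * B := by
    rw [← hB]
    calc (h + 1) * 2 ^ (p + 2) ≤ (2 * h) * 2 ^ (p + 2) := Nat.mul_le_mul_right _ (by omega)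
      _ = 2 * (h * 2 ^ (p + 2)) := by ring
  rw [hB] at hA ⊢
  have hB0 : 1 ≤ B := by
    rw [← hB]
    exact Nat.mul_pos h1 (by positivity)
  have hkN : k ^ 2 ≤ N := le_trans (Nat.le_mul_of_pos_left _ hB0) hA
  have c1 : (h + 1) * 2 ^ (p + 2) * k ≤ N := by
    calc (h + 1) * 2 ^ (p + 2) * k ≤ 2 * B * k := Nat.mul_le_mul_right _ hB1
      _ ≤ k * B * k := Nat.mul_le_mul_right _ (Nat.mul_le_mul_right _ (by omega))
      _ = B * k ^ 2 := by ring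
      _ ≤ N := hA
  have hN1 : 1 ≤ N := H.one_le_N
  calc N * (2 * ℓ + k * ℓ) + (h + 1) * 2 ^ (p + 2) * k + B * k ^ 2 + B * k ^ 2 * k + 1
      ≤ N * (2 * ℓ + k * ℓ) + N + N + N * k + N := by
        have := Nat.mul_le_mul_right k hA
        omega
    _ = N * ((2 * ℓ + 3) + k * (ℓ + 1)) := by ring
    _ ≤ N * (k + k * (ℓ + 1)) := Nat.mul_le_mul_left _ (Nat.add_le_add_right hk1 _)
    _ = N * (k * (ℓ + 2)) := by ring
    _ ≤ N * (k * k) := Nat.mul_le_mul_left _ (Nat.mul_le_mul_left _ (by omega))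
    _ ≤ N * N := Nat.mul_le_mul_left _ (le_trans (le_of_eq (sq k).symm) hkN)
    _ = N ^ 2 := (sq N).symm

theorem depth_le (H : Par θ ζ δ m a p q h ℓ N) (hq : q = 2 * a + 8) :
    ((ℓ + 2 + 3 * h : ℕ) : ℝ) ≤ 8 * Real.log N := by
  have h3 := H.log_N
  have ha : (32 : ℝ) ≤ a := by
    have : 32 ≤ a := by have := H.ha; have := H.hm; omega
    exact_mod_cast this
  have hp : (37 : ℝ) ≤ p := by
    have : 37 ≤ p := by have := H.ha; have := H.hm; have := H.hp2; omega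
    exact_mod_cast this
  rw [H.hℓ, H.hh, hq]
  push_cast
  have h4 : (1184 : ℝ) ≤ a * p := by nlinarith
  have h5 : (37 : ℝ) * a ≤ a * p := by nlinarith
  have h6 : (32 : ℝ) * p ≤ a * p := by nlinarith
  nlinarith

theorem stack_size (H : Par θ ζ δ m a p q h ℓ N) :
    (h + 1) * 2 ^ (p + 2) + 2 ^ ℓ + h * 2 ^ (p + 2) * (2 ^ ℓ) ^ 2 + h * 2 ^ (p + 2) +
      h * 2 ^ (p + 2) * 2 ^ ℓ ≤ N ^ 2 := by
  have h1 := H.h1
  have hℓ : 32 ≤ ℓ := by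
    have := H.ha
    have := H.hm
    have := H.hp2
    rw [H.hℓ]
    nlinarith
  have hN := H.N_eq
  have hA : h * 2 ^ (p + 2) * (2 ^ ℓ) ^ 2 ≤ N := by
    rw [hN, ← pow_mul, mul_comm ℓ 2]
    refine le_trans (le_of_eq ?_) (Nat.le_add_right _ _)
    ring
  obtain ⟨k, hk⟩ : ∃ k, 2 ^ ℓ = k := ⟨_, rfl⟩
  have hk1 : 2 * ℓ + 3 ≤ k := by rw [← hk]; exact pow_ge (by omega)
  rw [hk] at hA ⊢
  obtain ⟨B, hB⟩ : ∃ B, h * 2 ^ (p + 2) = B := ⟨_, rfl⟩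
  have hB1 : (h + 1) * 2 ^ (p + 2) ≤ 2 * B := by
    rw [← hB]
    calc (h + 1) * 2 ^ (p + 2) ≤ (2 * h) * 2 ^ (p + 2) := Nat.mul_le_mul_right _ (by omega)
      _ = 2 * (h * 2 ^ (p + 2)) := by ring
  rw [hB] at hA ⊢
  have hB0 : 1 ≤ B := by
    rw [← hB]
    exact Nat.mul_pos h1 (by positivity)
  have hkN : k ^ 2 ≤ N := le_trans (Nat.le_mul_of_pos_left _ hB0) hA
  have hBk : B * k ≤ N := by
    refine le_trans (Nat.mul_le_mul_left _ ?_) hA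
    nlinarith
  have hBN : 2 * B ≤ N := by nlinarith
  have hkN' : k ≤ N := by nlinarith
  have hN5 : 5 ≤ N := by nlinarith
  calc (h + 1) * 2 ^ (p + 2) + k + B * k ^ 2 + B + B * k ≤ N + N + N + N + N := by omega
    _ = N * 5 := by ring
    _ ≤ N * N := Nat.mul_le_mul_left _ hN5
    _ = N ^ 2 := (sq N).symm

theorem stack_time (H : Par θ ζ δ m a p q h ℓ N) (hq : q = 2 * a + 8) : 5 * 2 ^ h ≤ N ^ 2 := by
  have ha : 32 ≤ a := by have := H.ha; have := H.hm; omega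
  have hp : 37 ≤ p := by have := H.hp2; omega
  have h1 : h + 3 ≤ 4 * ℓ := by
    rw [H.hℓ, H.hh, hq]
    nlinarith
  calc 5 * 2 ^ h ≤ 2 ^ 3 * 2 ^ h := Nat.mul_le_mul_right _ (by norm_num)
    _ = 2 ^ (h + 3) := by rw [← pow_add]; congr 1; ring
    _ ≤ 2 ^ (4 * ℓ) := Nat.pow_le_pow_right (by norm_num) h1
    _ = (2 ^ (2 * ℓ)) ^ 2 := by rw [← pow_mul]; congr 1; ring
    _ ≤ N ^ 2 := Nat.pow_le_pow_left H.N_ge 2

theorem final (θ δ : ℝ) (hθ0 : 0 ≤ θ) (hθ : θ < 1 / 4) (hδ : 0 < δ) :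
    ∃ (a q p₀ : ℕ) (c : ℝ), 0 < c ∧ ∀ p : ℕ, p₀ ≤ p →
    ∀ h : ℕ, h = q * (p + 2) → ∀ ℓ : ℕ, ℓ = a * p →
    ∀ N : ℕ, N = Fintype.card (Var 2 p h (2 ^ ℓ)) →
    ∀ (g : Word 2 p) (i : Fin 2) (f : Input 2 p h (2 ^ ℓ) → Bool), f = rootBit g i →
      BySAC f ((N : ℝ) ^ 2) (8 * Real.log N) ∧
      BySAC (fun x => !f x) ((N : ℝ) ^ 2) (8 * Real.log N) ∧
      ByPushdown f ((N : ℝ) ^ 2) ((N : ℝ) ^ 2) ∧
      ByProgram f ((N : ℝ) ^ δ) ((N : ℝ) ^ δ) ((N : ℝ) ^ δ) ∧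
      NondetHard f ((N : ℝ) ^ c) ((N : ℝ) ^ θ) ∧
      NondetHard (fun x => !f x) ((N : ℝ) ^ c) ((N : ℝ) ^ θ) := by
  obtain ⟨ζ, m, a, h1, h2, h3, h4, h5, h6⟩ := exists_par hθ0 hθ hδ
  refine ⟨a, 2 * a + 8, max (144 * (m + 1)) (2 * a + 8), 1 / (8 * ((a : ℝ) + 2)),
    by positivity, ?_⟩
  intro p hp h hh ℓ hℓ N hN g i f hf
  have hp1 : 144 * (m + 1) ≤ p := le_trans (le_max_left _ _) hp
  have hp2 : 2 * a + 8 ≤ p := le_trans (le_max_right _ _) hp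
  have hq' : 2 * a + 8 ≤ 2 ^ p := hp2.trans Nat.lt_two_pow_self.le
  have H : Par θ ζ δ m a p (2 * a + 8) h ℓ N :=
    ⟨hθ0, h1, h2, h3, hδ, h4, h5, h6, hp1, by omega, by omega, hq', hh, hℓ, hN⟩
  have hℓ1 : 1 ≤ ℓ := by
    rw [hℓ]
    exact Nat.mul_pos (by omega) (by omega)
  have h2ℓ : 2 ≤ 2 ^ ℓ := by
    calc 2 = 2 ^ 1 := (pow_one _).symm
      _ ≤ 2 ^ ℓ := Nat.pow_le_pow_right (by norm_num) hℓ1
  have e0 : bit (⟨0, by omega⟩ : Fin (2 ^ ℓ)) = true := rfl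
  have e1 : bit (⟨1, by omega⟩ : Fin (2 ^ ℓ)) = false := rfl
  subst hf
  have hsz : ((Fintype.card (Gt p h ℓ) : ℕ) : ℝ) ≤ (N : ℝ) ^ 2 := by exact_mod_cast size_le H
  refine ⟨bySAC hℓ1 bit g i hsz (depth_le H rfl), bySAC hℓ1 (fun c => !bit c) g i hsz
    (depth_le H rfl), byPushdown bit g i ?_ ?_, H.time g i, ?_, ?_⟩
  · exact_mod_cast stack_size H
  · exact_mod_cast stack_time H rfl
  · exact H.hard le_rfl (S := bit) e0 e1 g i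
  · refine H.hard le_rfl (S := fun c => !bit c) (a₀ := ⟨1, by omega⟩) (b₀ := ⟨0, by omega⟩) ?_ ?_ g i
    · show (!bit (⟨1, by omega⟩ : Fin (2 ^ ℓ))) = true
      rw [e1]
      rfl
    · show (!bit (⟨0, by omega⟩ : Fin (2 ^ ℓ))) = false
      rw [e0]
      rfl

end Pool.Agent.W994.SAC
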